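import Pool.Agent.R978.UI.MainA
import Pool.Agent.R978.UI.MainB
import Pool.Agent.R422.UI.B1
import Pool.Agent.R711.UIA1
import Pool.Agent.R746.UIB0
import Pool.Agent.R793.UIB4
import Pool.Agent.R91.UIA2
import Pool.Agent.R91.UIB3
import Pool.Agent.R662.UC.C4

/-!
# `1/n` is the sharp threshold for exponentially many unlabeled induced subgraphs in `G(n,p)`

The random graph `G(n,p)` has `2^{o(n)}` unlabeled induced subgraphs w.h.p. when `p < (1-δ)/n`, and
`2^{Θ(n)}` w.h.p. when `p > (1+δ)/n`.  Since a graph and its complement have the same number of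
unlabeled induced subgraphs, the same threshold appears at the other end of `[0,1]`; the theorem
covers the whole range of `p` on both sides.
-/

set_option autoImplicit false

open Filter Finset

namespace Pool.Agent.Results.MP_52097a_pr.SharpThreshold

open scoped Classical in
/-- The probability that `G(n,p)` (a random simple graph on `Fin n`, each of the `n.choose 2` pairs
being an edge independently with probability `p`) has the property `A`. -/
noncomputable def prob (n : ℕ) (p : ℝ) (A : SimpleGraph (Fin n) → Prop) : ℝ :=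
  ∑ G : SimpleGraph (Fin n),
    if A G then p ^ G.edgeSet.ncard * (1 - p) ^ (n.choose 2 - G.edgeSet.ncard) else 0

/-- Two vertex sets are equivalent when they induce isomorphic subgraphs of `G`. -/
def inducedSetoid {n : ℕ} (G : SimpleGraph (Fin n)) : Setoid (Finset (Fin n)) where
  r S T := Nonempty (G.induce (S : Set (Fin n)) ≃g G.induce (T : Set (Fin n)))
  iseqv := ⟨fun _ => ⟨SimpleGraph.Iso.refl⟩, fun ⟨e⟩ => ⟨e.symm⟩, fun ⟨e⟩ ⟨f⟩ => ⟨e.trans f⟩⟩

/-- `U G`: the number of isomorphism classes among the induced subgraphs of `G`. -/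
noncomputable def U {n : ℕ} (G : SimpleGraph (Fin n)) : ℕ := Nat.card (Quotient (inducedSetoid G))

/-- **The sharp threshold is at `1/n`.**  Let `δ > 0`.

* If `p(n) < (1-δ)/n` for all large `n` (or, more generally, `p(n) < (1-δ)/n` or
  `1 - p(n) < (1-δ)/n`), then for every `ε > 0` w.h.p. `U(G(n,p)) ≤ 2^{εn}`.
* There is `ε > 0`, depending on `δ` only, such that if `p(n) > (1+δ)/n` and
  `1 - p(n) > (1+δ)/n` for all large `n`, then w.h.p. `U(G(n,p)) ≥ 2^{εn}`. -/
theorem result (δ : ℝ) (hδ : 0 < δ) :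
    (∀ p : ℕ → ℝ, (∀ n, 0 ≤ p n ∧ p n ≤ 1) →
      (∀ᶠ n : ℕ in atTop, p n < (1 - δ) / n ∨ 1 - p n < (1 - δ) / n) →
      ∀ ε : ℝ, 0 < ε →
        Tendsto (fun n : ℕ => prob n (p n) fun G => (U G : ℝ) ≤ (2 : ℝ) ^ (ε * n)) atTop (nhds 1)) ∧
    (∃ ε : ℝ, 0 < ε ∧ ∀ p : ℕ → ℝ,
      (∀ᶠ n : ℕ in atTop, (1 + δ) / n < p n ∧ (1 + δ) / n < 1 - p n) →
        Tendsto (fun n : ℕ => prob n (p n) fun G => (2 : ℝ) ^ (ε * n) ≤ (U G : ℝ)) atTop (nhds 1)) :=
  R978UI.main
    (R978UI.mainA Pool.Agent.R711.UIA1.stmtA1 Pool.Agent.R91.UIA2.stmtA2)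
    (R978UI.mainB (Pool.Agent.R746.UIB0.stmtB0 R978UI.stmtUpper)
      (Pool.Agent.R422.UI.stmtB1 (Pool.Agent.R746.UIB0.stmtB0 R978UI.stmtUpper)
        (Pool.Agent.R746.UIB0.stmtB00 R978UI.stmtUpper) R978UI.stmtIndep)
      (Pool.Agent.R91.UIB3.stmtB3 R978UI.stmtIndep)
      (Pool.Agent.R793.UIB4.stmtB4 R978UI.stmtFibre))
    (R978UI.C.stmtC R978UI.stmtIndep R978UI.stmtLower R978UI.stmtFibre) δ hδ

end Pool.Agent.Results.MP_52097a_pr.SharpThreshold
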